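import Pool.Agent.Y819.ZF.Stm2

/-! Project ZF, second part: the complete graph on `p - 1` vertices. -/

set_option autoImplicit false
set_option linter.all false

namespace Pool.Agent.Y427.ZG

open MvPolynomial Finset Pool.Agent.Helper929 Pool.Agent.H604R2.LEC Pool.Agent.Y819.ZF
  Pool.Agent.Y819.ZF.Rel

/-- the multiplicities of the complete graph -/
theorem nm_top {V : Type} {n : ℕ} (e : V ≃ Fin n) (x : Ed n) :
    nm (ind (⊤ : SimpleGraph V)) e x = 1 := by
  classical
  unfold nm Pool.Agent.Y819.ZF.ind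
  rw [if_pos]
  rw [SimpleGraph.top_adj]
  intro h
  exact absurd (e.symm.injective h) x.2.ne

theorem main (h1 : S_KZ) (h2 : S_PF) (h3 : S_ISO) (h4 : S_NUM) : S_KOK := by
  intro p hp hp2 V hV n e
  have hp' : p.Prime := hp.out
  have h2le := hp'.two_le
  have hn : n = p - 1 := by
    rw [← hV, Nat.card_congr e, Nat.card_eq_fintype_card, Fintype.card_fin]
  have hodd : Odd p := hp'.odd_of_ne_two hp2
  have hne : Even n := by
    obtain ⟨k, hk⟩ := hodd
    exact ⟨k, by omega⟩
  have hD := h1 p n hne (by omega)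
  have hreg : Reg (n - 1) (fun e : Ed n => e.1.1) (fun e : Ed n => e.1.2) := reg_K
  have hc := reg_card _ _ hreg
  have hcard : Fintype.card (Ed n) = (p - 2) * (n / 2) := by
    obtain ⟨k, hk⟩ := hne
    have h5 : n / 2 = k := by omega
    have h6 : n - 1 = p - 2 := by omega
    rw [h5]
    rw [h6] at hc
    have h7 : 2 * Fintype.card (Ed n) = 2 * ((p - 2) * k) := by
      rw [hc]
      calc (p - 2) * n = (p - 2) * (k + k) := by rw [← hk]
        _ = 2 * ((p - 2) * k) := by ring
    omega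
  rw [h2 p n (Ed n) _ _ _ (skew_antisymm _) (skew_self _) hcard] at hD
  have hcc : cc (ZMod p) (p - 2) (fun e : Ed n => e.1.1) (fun e : Ed n => e.1.2) ≠ 0 :=
    left_ne_zero_of_mul hD
  let ψ : Ed n ≃ ME (nm (ind (⊤ : SimpleGraph V)) e) :=
    { toFun := fun x => ⟨x, ⟨0, by rw [nm_top]; exact Nat.one_pos⟩⟩
      invFun := fun x => x.1
      left_inv := fun _ => rfl
      right_inv := by
        rintro ⟨x, i⟩
        have hi : i.1 = 0 := by
          have h8 := i.2
          have h9 := nm_top e x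
          omega
        have : i = ⟨0, by rw [nm_top]; exact Nat.one_pos⟩ := Fin.ext hi
        rw [this] }
  obtain ⟨ε, hε, heq⟩ := h3 (ZMod p) (p - 2) n (Ed n) (ME (nm (ind (⊤ : SimpleGraph V)) e))
    (fun e : Ed n => e.1.1) (fun e : Ed n => e.1.2) (mτ _) (mη _) ψ 1 (fun x => Or.inl ⟨rfl, rfl⟩)
  rw [heq]
  refine mul_ne_zero ?_ hcc
  rcases hε with h | h
  · rw [h]; simp
  · rw [h]; simp

end Pool.Agent.Y427.ZG
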